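import Pool.Agent.Lib.MP_790f3b_al.Main

set_option autoImplicit false

namespace Pool.Agent.Lib.MP_790f3b_al.T

/-- The additive group of the left brace. -/
def MM : AddSubgroup (ℚ × ℚ × ℚ) where
  carrier := {m | (m.1 ∈ Loc 2 ∧ m.2.1 ∈ Loc 2 ∧ m.2.2 ∈ Loc 2) ∧
    ∀ (p : ℕ) [Fact p.Prime], p ≠ 2 → p * m.1 ∈ Loc p ∧ p ^ 2 * m.2.1 - 2 * m.1 ∈ Loc p ∧
      p ^ 3 * m.2.2 - p * m.2.1 ∈ Loc p}
  add_mem' := by
    rintro m n ⟨⟨g1, g2, g3⟩, g4⟩ ⟨⟨h1, h2, h3⟩, h4⟩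
    refine ⟨⟨add_mem g1 h1, add_mem g2 h2, add_mem g3 h3⟩, fun p _ hp => ?_⟩
    obtain ⟨a1, a2, a3⟩ := g4 p hp
    obtain ⟨b1, b2, b3⟩ := h4 p hp
    refine ⟨?_, ?_, ?_⟩
    · convert add_mem a1 b1 using 1; simp only [Prod.fst_add]; ring
    · convert add_mem a2 b2 using 1; simp only [Prod.fst_add, Prod.snd_add]; ring
    · convert add_mem a3 b3 using 1; simp only [Prod.fst_add, Prod.snd_add]; ring
  zero_mem' := ⟨⟨zero_mem _, zero_mem _, zero_mem _⟩, fun p _ _ => by simp⟩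
  neg_mem' := by
    rintro m ⟨⟨g1, g2, g3⟩, g4⟩
    refine ⟨⟨neg_mem g1, neg_mem g2, neg_mem g3⟩, fun p _ hp => ?_⟩
    obtain ⟨a1, a2, a3⟩ := g4 p hp
    refine ⟨?_, ?_, ?_⟩
    · convert neg_mem a1 using 1; simp only [Prod.fst_neg]; ring
    · convert neg_mem a2 using 1; simp only [Prod.fst_neg, Prod.snd_neg]; ring
    · convert neg_mem a3 using 1; simp only [Prod.fst_neg, Prod.snd_neg]; ring

/-- The action. -/
def lam (s : ℚ) (m : ℚ × ℚ × ℚ) : ℚ × ℚ × ℚ :=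
  (m.1, m.2.1 + 2 * s * m.1, m.2.2 + s * m.2.1 + s ^ 2 * m.1)

theorem lam_mem {m n : ℚ × ℚ × ℚ} (hn : n ∈ MM) (hm : m ∈ MM) : lam n.1 m ∈ MM := by
  obtain ⟨⟨g1, g2, g3⟩, g4⟩ := hm
  obtain ⟨⟨h1, -⟩, h4⟩ := hn
  refine ⟨⟨g1, add_mem g2 (mul_mem (mul_mem (ofNat_mem _ 2) h1) g1),
    add_mem (add_mem g3 (mul_mem h1 g2)) (mul_mem (pow_mem h1 2) g1)⟩, fun p _ hp => ?_⟩
  obtain ⟨a1, a2, a3⟩ := g4 p hp
  obtain ⟨b1, -⟩ := h4 p hp
  refine ⟨a1, ?_, ?_⟩
  · convert add_mem a2 (mul_mem (mul_mem (ofNat_mem _ 2) b1) a1) using 1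
    simp only [lam]; ring
  · convert add_mem (add_mem a3 (mul_mem b1 a2)) (mul_mem (pow_mem b1 2) a1) using 1
    simp only [lam]; ring

/-- The bijective cocycle. -/
def coc (g : Heis) : ℚ × ℚ × ℚ := (g.a, g.b + g.a ^ 2, g.c + g.a * g.b / 2 + g.a ^ 3 / 3)

theorem coc_mul (g h : Heis) : coc (g * h) = coc g + lam (coc g).1 (coc h) := by
  ext <;> simp [coc, lam] <;> ring

/-- The multiplicative group of the left brace. -/
def GG : Subgroup Heis where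
  carrier := {g | coc g ∈ MM}
  mul_mem' := fun {g h} hg hh => by
    change coc _ ∈ MM
    rw [coc_mul]
    exact add_mem hg (lam_mem hg hh)
  one_mem' := by
    change coc _ ∈ MM
    convert MM.zero_mem
    ext <;> simp [coc]
  inv_mem' := fun {g} hg => by
    change coc _ ∈ MM
    convert neg_mem (lam_mem (neg_mem hg) hg) using 1
    ext <;> simp [coc, lam] <;> ring

/-- The cocycle is a bijection onto `MM`. -/
def eqv : GG ≃ MM where
  toFun g := ⟨coc g, g.2⟩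
  invFun m := ⟨⟨m.1.1, m.1.2.1 - m.1.1 ^ 2,
    m.1.2.2 - m.1.1 * (m.1.2.1 - m.1.1 ^ 2) / 2 - m.1.1 ^ 3 / 3⟩, by
      change coc _ ∈ MM
      convert m.2
      ext <;> simp [coc]
      ring⟩
  left_inv g := by ext <;> simp [coc]; ring
  right_inv m := by ext <;> simp [coc]; ring

/-- the three coordinates on the counterexample -/
def ca (g : GG) : ℚ := g.1.a
def cb (g : GG) : ℚ := g.1.b
def cc (g : GG) : ℚ := g.1.c

theorem gext {g h : GG} (h1 : ca g = ca h) (h2 : cb g = cb h) (h3 : cc g = cc h) : g = h :=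
  Subtype.ext (Heis.ext h1 h2 h3)

@[simp] theorem ca_mul (g h : GG) : ca (g * h) = ca g + ca h := rfl
@[simp] theorem cb_mul (g h : GG) : cb (g * h) = cb g + cb h := rfl
@[simp] theorem cc_mul (g h : GG) :
    cc (g * h) = cc g + cc h + (ca g * cb h - ca h * cb g) / 2 := rfl
@[simp] theorem ca_one : ca 1 = 0 := rfl
@[simp] theorem cb_one : cb 1 = 0 := rfl
@[simp] theorem cc_one : cc 1 = 0 := rfl
@[simp] theorem ca_inv (g : GG) : ca g⁻¹ = -ca g := rfl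
@[simp] theorem cb_inv (g : GG) : cb g⁻¹ = -cb g := rfl
@[simp] theorem cc_inv (g : GG) : cc g⁻¹ = -cc g := rfl
@[simp] theorem ca_pow (g : GG) (n : ℕ) : ca (g ^ n) = n * ca g := (Heis.pow_abc g.1 n).1
@[simp] theorem cb_pow (g : GG) (n : ℕ) : cb (g ^ n) = n * cb g := (Heis.pow_abc g.1 n).2.1
@[simp] theorem cc_pow (g : GG) (n : ℕ) : cc (g ^ n) = n * cc g := (Heis.pow_abc g.1 n).2.2
@[simp] theorem ca_zpow (g : GG) (n : ℤ) : ca (g ^ n) = n * ca g := (Heis.zpow_abc g.1 n).1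
@[simp] theorem cb_zpow (g : GG) (n : ℤ) : cb (g ^ n) = n * cb g := (Heis.zpow_abc g.1 n).2.1
@[simp] theorem cc_zpow (g : GG) (n : ℤ) : cc (g ^ n) = n * cc g := (Heis.zpow_abc g.1 n).2.2

theorem int_mem (a b c : ℤ) : ((a : ℚ), (b : ℚ), (c : ℚ)) ∈ MM :=
  ⟨⟨intCast_mem _ _, intCast_mem _ _, intCast_mem _ _⟩, fun p _ _ => by
    refine ⟨?_, sub_mem ?_ ?_, sub_mem ?_ ?_⟩ <;>
      apply_rules [mul_mem, pow_mem, natCast_mem, intCast_mem, ofNat_mem]⟩

def gx : GG := eqv.symm ⟨_, int_mem 1 1 0⟩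
def gy : GG := eqv.symm ⟨_, int_mem 0 1 0⟩
def gz : GG := eqv.symm ⟨_, int_mem 0 0 1⟩

@[simp] theorem ca_gx : ca gx = 1 := by simp [ca, gx, eqv]
@[simp] theorem cb_gx : cb gx = 0 := by simp [cb, gx, eqv]
@[simp] theorem ca_gy : ca gy = 0 := by simp [ca, gy, eqv]
@[simp] theorem cb_gy : cb gy = 1 := by simp [cb, gy, eqv]
@[simp] theorem ca_gz : ca gz = 0 := by simp [ca, gz, eqv]
@[simp] theorem cb_gz : cb gz = 0 := by simp [cb, gz, eqv]
@[simp] theorem cc_gz : cc gz = 1 := by simp [cc, gz, eqv]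

theorem xy_eq : gx * gy = gz * (gy * gx) := by
  apply gext <;> simp; ring

/-- elements with trivial first two coordinates -/
def Cen (w : GG) : Prop := ca w = 0 ∧ cb w = 0

theorem Cen.comm {w : GG} (h : Cen w) (g : GG) : w * g = g * w := by
  apply gext <;> simp [h.1, h.2, add_comm]

theorem cen_gz : Cen gz := ⟨ca_gz, cb_gz⟩

theorem exists_comm (g h : GG) :
    ∃ w, Cen w ∧ cc w = ca g * cb h - ca h * cb g ∧ g * h = w * (h * g) := by
  refine ⟨g * h * (h * g)⁻¹, ⟨by simp; ring, by simp; ring⟩, by simp; ring, by group⟩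

theorem Cen.pow_eq {w : GG} (h : Cen w) : w ^ (cc w).den = gz ^ (cc w).num := by
  apply gext
  · simp [h.1]
  · simp [h.2]
  · simp only [cc_pow, cc_zpow, cc_gz, mul_one]
    rw [mul_comm]; exact Rat.mul_den_eq_num _

theorem Cen.loc {w : GG} (h : Cen w) :
    cc w ∈ Loc 2 ∧ ∀ (p : ℕ) [Fact p.Prime], p ≠ 2 → p ^ 3 * cc w ∈ Loc p := by
  have e1 : w.1.a = 0 := h.1
  have e2 : w.1.b = 0 := h.2
  exact ⟨by simpa [coc, cc, e1] using w.2.1.2.2, fun p _ hp => by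
    simpa [coc, cc, e1, e2] using (w.2.2 p hp).2.2⟩

theorem exists_div (p : ℕ) [hp : Fact p.Prime] (h2 : p ≠ 2) :
    ∃ g : GG, ca g = (p : ℚ)⁻¹ ∧ cb g = 2 * (p : ℚ)⁻¹ ^ 3 := by
  have hp0 : (p : ℚ) ≠ 0 := by exact_mod_cast hp.out.ne_zero
  have hi : ∀ (q : ℕ) [Fact q.Prime], q ≠ p → (p : ℚ)⁻¹ ∈ Loc q := fun q hq h =>
    inv_nat_mem_Loc fun hd => h ((Nat.prime_dvd_prime_iff_eq hq.out hp.out).1 hd)
  refine ⟨eqv.symm ⟨((p : ℚ)⁻¹, 2 * (p : ℚ)⁻¹ ^ 3 + (p : ℚ)⁻¹ ^ 2,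
    2 * (p : ℚ)⁻¹ ^ 5 + (p : ℚ)⁻¹ ^ 4), ?_, fun q _ _ => ?_⟩, rfl, by simp [cb, eqv]⟩
  · have := hi 2 h2.symm
    refine ⟨this, ?_, ?_⟩ <;> apply_rules [add_mem, mul_mem, pow_mem, ofNat_mem]
  by_cases h : q = p
  · subst h
    refine ⟨?_, ?_, ?_⟩
    · convert one_mem (Loc q); field_simp
    · convert one_mem (Loc q); field_simp; ring
    · convert zero_mem (Loc q); field_simp; ring
  · have := hi q h
    refine ⟨?_, sub_mem ?_ ?_, sub_mem ?_ ?_⟩ <;>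
      apply_rules [add_mem, mul_mem, pow_mem, ofNat_mem, natCast_mem]

/-- a subgroup containing `gx` and `gy` contains a power of every element -/
theorem pow_mem_of (P : Subgroup GG) (hx : gx ∈ P) (hy : gy ∈ P) (g : GG) :
    ∃ N : ℕ, 0 < N ∧ g ^ N ∈ P := by
  have hz : gz ∈ P := by
    have : gz = gx * gy * (gy * gx)⁻¹ := by rw [xy_eq]; group
    rw [this]
    exact P.mul_mem (P.mul_mem hx hy) (P.inv_mem (P.mul_mem hy hx))
  set N := (ca g).den * (cb g).den with hN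
  set s := gx ^ ((ca g).num * (cb g).den) * gy ^ ((cb g).num * (ca g).den) with hs
  have hsP : s ∈ P := P.mul_mem (P.zpow_mem hx _) (P.zpow_mem hy _)
  have hw : Cen (g ^ N * s⁻¹) := by
    have e1 := Rat.mul_den_eq_num (ca g)
    have e2 := Rat.mul_den_eq_num (cb g)
    constructor
    · simp only [hs, hN, ca_mul, ca_pow, ca_inv, ca_zpow, ca_gx, ca_gy]
      push_cast
      rw [← e1]; ring
    · simp only [hs, hN, cb_mul, cb_pow, cb_inv, cb_zpow, cb_gx, cb_gy]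
      push_cast
      rw [← e2]; ring
  refine ⟨N * (cc (g ^ N * s⁻¹)).den, Nat.mul_pos (Nat.mul_pos (ca g).den_pos (cb g).den_pos)
    (Rat.den_pos _), ?_⟩
  have e3 : g ^ N = (g ^ N * s⁻¹) * s := by group
  have hc : Commute (g ^ N * s⁻¹) s := hw.comm s
  rw [pow_mul, e3, hc.mul_pow, ← e3, hw.pow_eq]
  exact P.mul_mem (P.zpow_mem hz _) (P.pow_mem hsP _)

/-- additive maps to the rationals are determined by the values on `gx` and `gy` -/
theorem add_map_eq (θ : GG → ℚ) (hθ : ∀ g h, θ (g * h) = θ g + θ h) (g : GG) :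
    θ g = ca g * θ gx + cb g * θ gy := by
  have h1 : θ 1 = 0 := by have := hθ 1 1; rw [mul_one] at this; linarith
  have hinv : ∀ g, θ g⁻¹ = -θ g := fun g => by
    have := hθ g g⁻¹; rw [mul_inv_cancel, h1] at this; linarith
  have hpow : ∀ g (n : ℕ), θ (g ^ n) = n * θ g := fun g n => by
    induction n with
    | zero => simp [h1]
    | succ n ih => rw [pow_succ, hθ, ih]; push_cast; ring
  let P : Subgroup GG :=
    { carrier := {g | θ g = ca g * θ gx + cb g * θ gy}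
      mul_mem' := fun {g h} hg hh => by
        simp only [Set.mem_ofPred_eq] at hg hh ⊢
        rw [hθ, hg, hh, ca_mul, cb_mul]; ring
      one_mem' := by simp [h1]
      inv_mem' := fun {g} hg => by
        simp only [Set.mem_ofPred_eq] at hg ⊢
        rw [hinv, hg, ca_inv, cb_inv]; ring }
  obtain ⟨N, hN, hP⟩ := pow_mem_of P (by simp [P]) (by simp [P]) g
  have hP' : θ (g ^ N) = ca (g ^ N) * θ gx + cb (g ^ N) * θ gy := hP
  rw [hpow, ca_pow, cb_pow] at hP'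
  have hN' : (N : ℚ) ≠ 0 := by exact_mod_cast hN.ne'
  apply mul_left_cancel₀ hN'
  rw [hP']; ring

theorem commutator_le : commutator GG ≤ Subgroup.center GG := by
  rw [commutator_def, Subgroup.commutator_le]
  intro g _ h _
  rw [Subgroup.mem_center_iff]
  intro k
  have : Cen (g * h * g⁻¹ * h⁻¹) := ⟨by simp, by simp⟩
  exact (this.comm k).symm

theorem not_comm : gx * gy ≠ gy * gx := by
  intro h
  have := congrArg cc h
  simp at this
  linarith

end Pool.Agent.Lib.MP_790f3b_al.T
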