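import Pool.Agent.Lib.MP_790f3b_al.T.Dual

set_option autoImplicit false

namespace Pool.Agent.Lib.MP_790f3b_al.T

variable {M : Type*} [AddCommGroup M]

theorem pi_one (ρ : GG →* Module.End ℤ M) (π : GG → M)
    (hπ : ∀ g h, π (g * h) = π g + ρ g (π h)) : π 1 = 0 := by
  have := hπ 1 1
  simpa using this

/-- an additive functional killing the second layer kills the first one -/
theorem layer (ρ : GG →* Module.End ℤ M) (π : GG → M)
    (hπ : ∀ g h, π (g * h) = π g + ρ g (π h)) (hb : Function.Bijective π)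
    (hr : ∀ g h k m, π k = π g + π h → ρ k m - m = ρ g m - m + (ρ h m - m)) (f : M →+ ℚ)
    (hf : ∀ g h m, f (ρ g (ρ h m - m) - (ρ h m - m)) = 0) (g : GG) (m : M) :
    f (ρ g m) = f m := by
  let B : GG → GG → ℚ := fun g h => f (ρ g (π h) - π h)
  have hB1 : ∀ g g' h, B (g * g') h = B g h + B g' h := by
    intro g g' h
    have := hf g g' (π h)
    simp only [B, map_mul, Module.End.mul_apply, map_sub] at this ⊢
    linarith
  have hB2 : ∀ g h h', B g (h * h') = B g h + B g h' := by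
    intro g h h'
    have := hf g h (π h')
    simp only [B, hπ, map_add, map_sub] at this ⊢
    linarith
  have hB : ∀ g h, B g h = ca g * (ca h * B gx gx + cb h * B gx gy) +
      cb g * (ca h * B gy gx + cb h * B gy gy) := by
    intro g h
    rw [add_map_eq (fun g => B g h) (fun g g' => hB1 g g' h) g,
      add_map_eq (B gx) (hB2 gx) h, add_map_eq (B gy) (hB2 gy) h]
  have hχ : ∀ g h, f (π (g * h)) = f (π g) + f (π h) + B g h := by
    intro g h
    simp only [B, hπ, map_add, map_sub]; ring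
  have h1 : f (π 1) = 0 := by rw [pi_one ρ π hπ, map_zero]
  set γ := f (π gz) with hγ
  have hcen : ∀ w, Cen w → f (π w) = cc w * γ := by
    have hBc : ∀ g w, Cen w → B g w = 0 := fun g w hw => by rw [hB, hw.1, hw.2]; ring
    have hpow : ∀ w, Cen w → ∀ n : ℕ, f (π (w ^ n)) = n * f (π w) := by
      intro w hw n
      induction n with
      | zero => simp [h1]
      | succ n ih => rw [pow_succ, hχ, ih, hBc _ _ hw]; push_cast; ring
    have hinv : ∀ w, Cen w → f (π w⁻¹) = -f (π w) := by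
      intro w hw
      have := hχ w⁻¹ w
      rw [inv_mul_cancel, h1, hBc _ _ hw] at this
      linarith
    have hz : ∀ n : ℤ, f (π (gz ^ n)) = n * γ := by
      intro n
      obtain ⟨m, rfl | rfl⟩ := n.eq_nat_or_neg
      · rw [zpow_natCast, hpow _ cen_gz]; simp [hγ]
      · rw [zpow_neg, zpow_natCast, hinv _ ⟨by simp, by simp⟩, hpow _ cen_gz]; simp [hγ]
    intro w hw
    have e := hpow w hw (cc w).den
    rw [hw.pow_eq, hz, ← Rat.mul_den_eq_num] at e
    have hd : ((cc w).den : ℚ) ≠ 0 := by exact_mod_cast (cc w).den_nz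
    apply mul_left_cancel₀ hd
    rw [← e]; ring
  have hanti : ∀ g h, B g h - B h g = (ca g * cb h - ca h * cb g) * γ := by
    intro g h
    obtain ⟨w, hw, hc, e⟩ := exists_comm g h
    have e1 := hχ g h
    rw [e, hχ, hχ, hcen w hw, hc, hB w, hw.1, hw.2] at e1
    linarith
  have hK : ∀ g h, ∃ k, (∀ l, B l k = 0) ∧ (∀ l, B k l = 0) ∧ f (π k) = B g h ∧
      (g = h → k * g = g * k) := by
    intro g h
    obtain ⟨k, hk⟩ := hb.2 (ρ g (π h) - π h)
    obtain ⟨l, hl⟩ := hb.2 (π g + π h)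
    have e : ∀ m, ρ k m - m = ρ g (ρ h m - m) - (ρ h m - m) := fun m => by
      have e1 := hr l k (g * h) m (by rw [hπ, hl, hk]; abel)
      rw [hr g h l m hl, map_mul, Module.End.mul_apply, ← sub_eq_iff_eq_add'] at e1
      rw [← e1, map_sub]
      abel
    refine ⟨k, fun g' => by simp only [B, hk]; exact hf _ _ _, fun g' => by
      simp only [B, e]; exact hf _ _ _, by rw [hk], ?_⟩
    rintro rfl
    apply hb.1
    rw [hπ, hπ, sub_eq_iff_eq_add.1 (e (π g)), hk]
    abel
  have hzero : B gx gx = 0 ∧ B gy gy = 0 ∧ B gx gy + B gy gx = 0 ∧ γ = 0 := by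
    by_cases hγ0 : γ = 0
    · have hq : ∀ g, B g g = 0 := fun g => by
        obtain ⟨k, k1, -, k3, k4⟩ := hK g g
        have k5 := congrArg cc (k4 rfl)
        have k6 := k1 g
        simp only [cc_mul] at k5
        by_cases ha : ca k = 0
        · by_cases hb' : cb k = 0
          · rw [← k3, hcen k ⟨ha, hb'⟩, hγ0, mul_zero]
          · rw [hB] at k6 ⊢
            apply mul_left_cancel₀ hb'
            linear_combination cb g * k6 - (ca g * B gx gx + cb g * B gy gx) * k5
        · rw [hB] at k6 ⊢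
          apply mul_left_cancel₀ ha
          linear_combination ca g * k6 + (ca g * B gx gy + cb g * B gy gy) * k5
      have := hq (gx * gy)
      rw [hB1, hB2, hB2, hq, hq] at this
      exact ⟨hq _, hq _, by linarith, hγ0⟩
    exfalso
    have hC : ∀ g h, ∃ k, Cen k ∧ B g h / γ = cc k := fun g h => by
      obtain ⟨k, k1, k2, k3, -⟩ := hK g h
      have e1 := hanti gx k
      have e2 := hanti gy k
      rw [k1, k2] at e1 e2
      have hk : Cen k := ⟨by simpa [hγ0] using e2, by simpa [hγ0] using e1⟩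
      exact ⟨k, hk, by rw [← k3, hcen k hk, mul_div_cancel_right₀ _ hγ0]⟩
    set x := B gx gx / γ
    set y := B gy gy / γ
    set s := (B gx gy + B gy gx) / γ
    have key : ∀ (p : ℕ) [Fact p.Prime], p ≠ 2 →
        x * p + 2 * s * (p : ℚ)⁻¹ + 4 * y * (p : ℚ)⁻¹ ^ 3 ∈ Loc p := fun p hp h2 => by
      obtain ⟨g, ga, gb⟩ := exists_div p h2
      obtain ⟨k, hk, e⟩ := hC g g
      have hp0 : (p : ℚ) ≠ 0 := by exact_mod_cast hp.out.ne_zero
      convert hk.loc.2 p h2 using 1
      rw [← e, hB, ga, gb]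
      simp only [x, y, s]
      field_simp
      ring
    have zero : ∀ t : ℚ, (∀ (p : ℕ) [Fact p.Prime], p ≠ 2 → x ∈ Loc p → s ∈ Loc p →
        t * (p : ℚ)⁻¹ ∈ Loc p) → t = 0 := fun t h => by
      by_contra h0
      obtain ⟨p, hp1, hp⟩ := Nat.exists_infinite_primes (3 + x.den + s.den + t⁻¹.den)
      have : Fact p.Prime := ⟨hp⟩
      apply inv_self_not_mem_Loc (p := p)
      convert mul_mem (mem_Loc_of_lt (t := t⁻¹) (by omega))
        (h p (by omega) (mem_Loc_of_lt (by omega)) (mem_Loc_of_lt (by omega))) using 1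
      rw [inv_mul_cancel_left₀ h0]
    have hy : 4 * y = 0 := zero _ fun p hp h2 hx hs => by
      have hp0 : (p : ℚ) ≠ 0 := by exact_mod_cast hp.out.ne_zero
      have hp1 := natCast_mem (Loc p) p
      convert sub_mem (sub_mem (mul_mem (pow_mem hp1 2) (key p h2)) (mul_mem hx (pow_mem hp1 3)))
        (mul_mem (mul_mem (ofNat_mem _ 2) hs) hp1) using 1
      field_simp
      ring
    have hs : 2 * s = 0 := zero _ fun p hp h2 hx _ => by
      convert sub_mem (key p h2) (mul_mem hx (natCast_mem (Loc p) p)) using 1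
      rw [hy]
      ring
    obtain ⟨k, hk, e⟩ := hC gx gy
    have d4 := hanti gx gy
    simp only [ca_gx, cb_gx, ca_gy, cb_gy] at d4
    apply inv_self_not_mem_Loc (p := 2)
    convert hk.loc.1
    have : B gx gy + B gy gx = 0 := by simpa [s, hγ0] using hs
    rw [← e, eq_div_iff hγ0]
    push_cast
    linarith
  obtain ⟨exx, eyy, exy, hγ0⟩ := hzero
  have d4 := hanti gx gy
  rw [hγ0] at d4
  obtain ⟨h, rfl⟩ := hb.2 m
  have := hB g h
  rw [exx, eyy, show B gx gy = 0 by linarith, show B gy gx = 0 by linarith] at this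
  simp only [B, map_sub] at this
  linarith

theorem not_torsion (ρ : GG →* Module.End ℤ M) (π : GG → M)
    (hπ : ∀ g h, π (g * h) = π g + ρ g (π h)) (hb : Function.Bijective π) (n : ℕ) (hn : 0 < n) :
    n • π gz ≠ 0 := by
  intro h0
  obtain ⟨k, hk⟩ := cen_unip ρ π hπ hb.2 cen_gz
  set φ := ρ gz - 1 with hφ
  have hstep : ∀ (i j : ℕ) (v : M), n • v = 0 →
      ∃ v', n • v' = 0 ∧ ρ (gz ^ i) ((φ ^ j) v) - (φ ^ j) v = (φ ^ (j + 1)) v' := by
    intro i j v hv
    refine ⟨(∑ l ∈ Finset.range i, ρ gz ^ l) v, by rw [← map_nsmul, hv, map_zero], ?_⟩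
    have hc : Commute (ρ gz ^ i - 1) (φ ^ j) := by
      refine Commute.pow_right (Commute.sub_left ?_ (Commute.one_left _)) _
      exact ((Commute.refl _).pow_left i).sub_right (Commute.one_right _)
    have e : φ ^ (j + 1) * (∑ l ∈ Finset.range i, ρ gz ^ l) = (ρ gz ^ i - 1) * φ ^ j := by
      rw [pow_succ, mul_assoc, hφ, mul_geom_sum, ← hφ, hc.eq]
    rw [← Module.End.mul_apply (φ ^ (j + 1)), e, map_pow]
    simp
  have main : ∀ j : ℕ, ∃ N : ℕ, 0 < N ∧ ∃ v, n • v = 0 ∧ π (gz ^ N) = (φ ^ j) v := by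
    intro j
    induction j with
    | zero => exact ⟨1, one_pos, π gz, h0, by simp⟩
    | succ j ih =>
      obtain ⟨N, hN, v, hv, e⟩ := ih
      have : ∀ i : ℕ, ∃ v', n • v' = 0 ∧
          π (gz ^ (N * i)) = i • (φ ^ j) v + (φ ^ (j + 1)) v' := by
        intro i
        induction i with
        | zero => exact ⟨0, by simp, by simp [pi_one ρ π hπ]⟩
        | succ i ih =>
          obtain ⟨v', hv', e'⟩ := ih
          obtain ⟨v'', hv'', e''⟩ := hstep (N * i) j v hv
          refine ⟨v' + v'', by rw [nsmul_add, hv', hv'', add_zero], ?_⟩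
          rw [mul_add, mul_one, pow_add, hπ, e', e, map_add, ← e'', succ_nsmul]
          abel
      obtain ⟨v', hv', e'⟩ := this n
      refine ⟨N * n, Nat.mul_pos hN hn, v', hv', ?_⟩
      rw [e', ← map_nsmul, hv, map_zero, zero_add]
  obtain ⟨N, hN, v, -, e⟩ := main k
  rw [hk, LinearMap.zero_apply, ← pi_one ρ π hπ] at e
  have := congrArg cc (hb.1 e)
  simp at this
  omega

/-- there is no two-sided brace on `GG` -/
theorem no_cocycle (ρ : GG →* Module.End ℤ M) (π : GG → M)
    (hπ : ∀ g h, π (g * h) = π g + ρ g (π h)) (hb : Function.Bijective π)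
    (hr : ∀ g h k m, π k = π g + π h → ρ k m - m = ρ g m - m + (ρ h m - m)) : False := by
  let W₀ : Submodule ℚ (M →+ ℚ) := Representation.invariants (dualRep ρ)
  have hW₀ : ∀ f, f ∈ W₀ ↔ ∀ g, dualRep ρ g f = f := fun f => Iff.rfl
  have hinv : ∀ g, W₀ ≤ W₀.comap (dualRep ρ g) := by
    intro g f hf
    show dualRep ρ g f ∈ W₀
    rw [(hW₀ f).1 hf g]; exact hf
  let σ : GG →* Module.End ℚ ((M →+ ℚ) ⧸ W₀) := Representation.quotient (dualRep ρ) W₀ hinv
  have hσ : ∀ g f, σ g (W₀.mkQ f) = W₀.mkQ (dualRep ρ g f) := fun g f => rfl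
  have hnt : Nontrivial ((M →+ ℚ) ⧸ W₀) := by
    rw [Submodule.Quotient.nontrivial_iff]
    intro htop
    obtain ⟨f, hf⟩ := exists_functional (π gz) (not_torsion ρ π hπ hb)
    have hf0 : ∀ g m, f (ρ g m) = f m := by
      intro g m
      have := (hW₀ f).1 (by rw [htop]; trivial) g⁻¹
      simpa using congrArg (fun φ : M →+ ℚ => φ m) this
    have := add_map_eq (fun g => f (π g)) (fun g h => by simp only [hπ, map_add, hf0]) gz
    simp [hf] at this
  obtain ⟨v, hv0, hv⟩ := exists_fixed σ (fun g => by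
    obtain ⟨k, hk⟩ := dual_unip ρ π hπ hb.2 g
    have hk' : ∀ (j : ℕ) f, ((σ g - 1) ^ j) (W₀.mkQ f) = W₀.mkQ (((dualRep ρ g - 1) ^ j) f) := by
      intro j
      induction j with
      | zero => simp
      | succ j ih =>
        intro m
        rw [pow_succ', pow_succ', Module.End.mul_apply, Module.End.mul_apply, ih]
        simp only [LinearMap.sub_apply, Module.End.one_apply, map_sub, hσ]
    refine ⟨k, LinearMap.ext fun q => ?_⟩
    obtain ⟨f, rfl⟩ := W₀.mkQ_surjective q
    rw [hk', hk]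
    simp)
  obtain ⟨f, rfl⟩ := W₀.mkQ_surjective v
  apply hv0
  rw [Submodule.mkQ_apply, Submodule.Quotient.mk_eq_zero, hW₀]
  have h2 : ∀ g h m, f (ρ g (ρ h m - m) - (ρ h m - m)) = 0 := by
    intro g h m
    have e1 := hv g⁻¹
    rw [hσ, Submodule.mkQ_apply, Submodule.mkQ_apply, Submodule.Quotient.eq, hW₀] at e1
    have e2 := congrArg (fun φ : M →+ ℚ => φ m) (e1 h⁻¹)
    simp only [dualRep_apply, inv_inv, AddMonoidHom.sub_apply] at e2
    simp only [map_sub]
    linarith
  intro g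
  ext m
  exact layer ρ π hπ hb hr f h2 g⁻¹ m

end Pool.Agent.Lib.MP_790f3b_al.T
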